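import Pool.Agent.helper20.HP.S1
import Pool.Agent.helper35.HP.E0
import Pool.Agent.helper35.HP.E1

/-!
Module E4 of the project MP_5ae64c_pr: triple sums over words with a long hit after the junction.
-/

open scoped BigOperators Topology
open Filter MeasureTheory

namespace Pool.Agent.helper20.HP

section
variable {V : Type} [Fintype V] [DecidableEq V] {K : HW V} {θ : ℝ} {h : ℕ}

/-- killed words split in three parts -/
theorem E4_split3 (o : V) (Γ : List V) (t m u : ℕ) (hmt : m ≤ t)
    (f : V → List V → List (Aut K) → ℝ) :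
    kmTL K o Γ (t + u) f = ∑ i : Fin Γ.length, EL K o (t - m) (fun P => EL K o u (fun R =>
      EL K o m (fun F => ind (okL K o Γ (Γ.get i) (P ++ (R ++ F))) *
        f (Γ.get i) (Γ.drop (i + 1)) (P ++ (R ++ F))))) := by
  unfold kmTL
  refine Finset.sum_congr rfl (fun i _ => ?_)
  have e : t + u = (t - m) + (u + m) := by omega
  rw [e, EL_split]
  refine EL_congr K o _ (fun P _ => ?_)
  rw [EL_split]

/-- killed words split in two parts -/
theorem E4_split2 (o : V) (Γ : List V) (t m : ℕ) (hmt : m ≤ t)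
    (f : V → List V → List (Aut K) → ℝ) :
    kmTL K o Γ t f = ∑ i : Fin Γ.length, EL K o (t - m) (fun P => 
      EL K o m (fun F => ind (okL K o Γ (Γ.get i) (P ++ F)) *
        f (Γ.get i) (Γ.drop (i + 1)) (P ++ F))) := by
  unfold kmTL
  refine Finset.sum_congr rfl (fun i _ => ?_)
  have e : t = (t - m) + m := by omega
  conv_lhs => rw [e, EL_split]

/-- the windows of a word in three parts -/
theorem E4_win {α : Type} (b U m : ℕ) (P R F : List α) (hP : b + U ≤ P.length) (hR : R.length ≤ U)
    (hF : F.length = m) :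
    ((win b U m (P ++ (R ++ F))).drop (U - R.length)).take b = P.rtake b ∧
    ((win b U m (P ++ (R ++ F))).drop (b + U - R.length)).take R.length = R ∧
    (win b U m (P ++ (R ++ F))).drop (b + U) = F.take b := by
  have hk : (P ++ (R ++ F)).length - m - (b + U) = P.length + R.length - (b + U) := by
    simp only [List.length_append]; omega
  have hw : win b U m (P ++ (R ++ F))
      = P.drop (P.length + R.length - (b + U)) ++ (R ++ F.take b) := by
    unfold win
    rw [hk, List.drop_append_of_le_length (by omega)]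
    have hl : (P.drop (P.length + R.length - (b + U))).length = b + U - R.length := by
      rw [List.length_drop]; omega
    rw [List.take_append, List.take_of_length_le (by omega), hl, List.take_append,
      List.take_of_length_le (by omega)]
    congr 2
    congr 1
    omega
  have hl : (P.drop (P.length + R.length - (b + U))).length = b + U - R.length := by
    rw [List.length_drop]; omega
  rw [hw]
  refine ⟨?_, ?_, ?_⟩
  · rw [List.drop_append_of_le_length (by omega), List.drop_drop]
    have e1 : P.length + R.length - (b + U) + (U - R.length) = P.length - b := by omega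
    rw [e1, List.take_append_of_le_length (by rw [List.length_drop]; omega)]
    rw [List.take_of_length_le (by rw [List.length_drop]; omega)]
    rfl
  · rw [List.drop_append, hl]
    have e1 : b + U - R.length - (b + U - R.length) = 0 := by omega
    rw [e1, List.drop_eq_nil_of_le (by rw [hl]), List.nil_append, List.drop_zero,
      List.take_append_of_le_length (le_refl _), List.take_length]
  · rw [List.drop_append, hl, List.drop_eq_nil_of_le (by rw [hl]; omega), List.nil_append]
    have e1 : b + U - (b + U - R.length) = R.length := by omega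
    rw [e1, List.drop_left]

/-- the window has full length -/
theorem E4_win_length {α : Type} (b U m : ℕ) (L : List α) (hbm : b ≤ m)
    (hL : m + b + U ≤ L.length) : (win b U m L).length = 2 * b + U := by
  unfold win
  rw [List.length_take, List.length_drop]
  omega

/-- number of insertions between two given words -/
theorem E4_ins_le (hP : Par K θ h) (o : V) (b g U : ℕ) (hU : U ≤ Nat.sqrt (Fintype.card V))
    (P F : List (Aut K)) (hb : b ≤ P.length) :
    ∑ u ∈ Finset.range (U + 1), EL K o u (fun R => ind (Ev K o b g (P.rtake b) R (F.take b)))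
      ≤ CZ θ := by
  have h1 := f1_le hP o b g U hU (List.replicate U 1 ++ (P.rtake b ++ F.take b))
  unfold f1 at h1
  have hr : (P.rtake b).length = b := by
    rw [List.rtake, List.length_drop]; omega
  have e1 : ((List.replicate U (1 : Aut K) ++ (P.rtake b ++ F.take b)).drop U).take b = P.rtake b := by
    rw [List.drop_append_of_le_length (by simp), List.drop_eq_nil_of_le (by simp), List.nil_append,
      List.take_append_of_le_length (by omega), List.take_of_length_le (by omega)]
  have e2 : (List.replicate U (1 : Aut K) ++ (P.rtake b ++ F.take b)).drop (b + U) = F.take b := by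
    rw [List.drop_append, List.drop_eq_nil_of_le (by simp), List.nil_append, List.drop_append,
      List.length_replicate, List.drop_eq_nil_of_le (by omega), List.nil_append, hr]
    have : b + U - U - b = 0 := by omega
    rw [this, List.drop_zero]
  rw [e1, e2] at h1
  exact h1

theorem E4_CZ_nonneg (θ : ℝ) : 0 ≤ CZ θ := by unfold CZ; positivity

/-- one junction, fixed length, insertions summed -/
theorem E4_term_a (hP : Par K θ h) (o : V) (Γ : List V) (g r m U t : ℕ)
    (hmt : m + 2 * h ≤ t) (hU : U ≤ Nat.sqrt (Fintype.card V)) :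
    ∑ u ∈ Finset.range (U + 1), ∑ i : Fin Γ.length, EL K o (t - m) (fun P => EL K o u (fun R =>
      EL K o m (fun F => g1 K o Γ (2 * h) g r (Γ.get i) (Γ.drop (i + 1)) P R F *
        ind (LHin (2 * h) F.length (Γ.get i) (Γ.drop (i + 1)) (vp o (fr K o (Γ.get i)) (P ++ F))))))
      ≤ CZ θ * kmTL K o Γ t (fun x ρ L => ind (LHin (2 * h) m x ρ (vp o (fr K o x) L)) *
          ind (stL K o x ρ L = r + 1)) := by
  rw [E4_split2 o Γ t m (by omega), Finset.sum_comm, Finset.mul_sum]
  refine Finset.sum_le_sum (fun i _ => ?_)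
  rw [← EL_sum, ← EL_mul_left]
  refine EL_mono K o _ (fun P hPl => ?_)
  have e1 : ∑ u ∈ Finset.range (U + 1), EL K o u (fun R =>
      EL K o m (fun F => g1 K o Γ (2 * h) g r (Γ.get i) (Γ.drop (i + 1)) P R F *
        ind (LHin (2 * h) F.length (Γ.get i) (Γ.drop (i + 1)) (vp o (fr K o (Γ.get i)) (P ++ F)))))
      = EL K o m (fun F => ∑ u ∈ Finset.range (U + 1), EL K o u (fun R =>
        g1 K o Γ (2 * h) g r (Γ.get i) (Γ.drop (i + 1)) P R F *
        ind (LHin (2 * h) F.length (Γ.get i) (Γ.drop (i + 1)) (vp o (fr K o (Γ.get i)) (P ++ F))))) := by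
    rw [EL_sum]
    refine Finset.sum_congr rfl (fun u _ => ?_)
    exact EL_comm K o u m _
  rw [e1, ← EL_mul_left]
  refine EL_mono K o _ (fun F hFl => ?_)
  have e2 : ∑ u ∈ Finset.range (U + 1), EL K o u (fun R =>
        g1 K o Γ (2 * h) g r (Γ.get i) (Γ.drop (i + 1)) P R F *
        ind (LHin (2 * h) F.length (Γ.get i) (Γ.drop (i + 1)) (vp o (fr K o (Γ.get i)) (P ++ F))))
      = (∑ u ∈ Finset.range (U + 1), EL K o u (fun R =>
          ind (Ev K o (2 * h) g (P.rtake (2 * h)) R (F.take (2 * h))))) *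
        (ind (okL K o Γ (Γ.get i) (P ++ F)) * (ind (LHin (2 * h) m (Γ.get i) (Γ.drop (i + 1))
          (vp o (fr K o (Γ.get i)) (P ++ F))) *
            ind (stL K o (Γ.get i) (Γ.drop (i + 1)) (P ++ F) = r + 1))) := by
    rw [Finset.sum_mul]
    refine Finset.sum_congr rfl (fun u _ => ?_)
    rw [← EL_mul_right]
    refine EL_congr K o _ (fun R _ => ?_)
    unfold g1
    rw [hFl]
    ring
  rw [e2]
  refine mul_le_mul_of_nonneg_right (E4_ins_le hP o (2 * h) g U hU P F (by omega)) ?_
  exact mul_nonneg (ind_nonneg _) (mul_nonneg (ind_nonneg _) (ind_nonneg _))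

/-- words with a long hit near the end, letter form of `LH_mass` -/
theorem E4_mass (hP : Par K θ h) (o : V) (Γ : List V) (hΓ : Γ.Nodup) (S N r w : ℕ)
    (hw : 4 * w ≤ Nat.sqrt (Fintype.card V)) :
    ∑ t ∈ Finset.Ico S N, kmTL K o Γ t (fun x ρ L =>
        ind (LHin (2 * h) w x ρ (vp o (fr K o x) L)) * ind (stL K o x ρ L = r + 1))
      ≤ 3 / 2 * CZ θ * ((w : ℝ) + 1) := by
  refine le_trans ?_ (LH_mass hP Γ hΓ N r w hw)
  unfold km
  have e : ∀ t, kmTL K o Γ t (fun x ρ L =>
        ind (LHin (2 * h) w x ρ (vp o (fr K o x) L)) * ind (stL K o x ρ L = r + 1))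
      = kmT K Γ t (fun x ρ l => ind (LHin (2 * h) w x ρ l) * lev r x ρ l) := by
    intro t
    rw [kmT_eq_kmTL o]
    rfl
  rw [Finset.sum_congr rfl (fun t _ => e t)]
  refine Finset.sum_le_sum_of_subset_of_nonneg ?_ (fun t _ _ => ?_)
  · intro t ht
    rw [Finset.mem_Ico] at ht
    exact Finset.mem_range.2 ht.2
  · exact kmT_nonneg K Γ t (fun x ρ l => mul_nonneg (ind_nonneg _) (ind_nonneg _))

theorem err_a (hP : Par K θ h) (o : V) (Γ : List V) (hΓ : Γ.Nodup) (g r m0 M U S N : ℕ)
    (hb : 2 * h ≤ m0) (hS : m0 + M + 2 * h + U ≤ S)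
    (hL : 4 * (m0 + M + U) ≤ Nat.sqrt (Fintype.card V)) :
    tri K o Γ m0 M U S N (fun x ρ P R F => g1 K o Γ (2 * h) g r x ρ P R F *
        ind (LHin (2 * h) F.length x ρ (vp o (fr K o x) (P ++ F))))
      ≤ 3 / 2 * CZ θ ^ 2 * (M * ((m0 : ℝ) + M + 1)) := by
  unfold tri
  have hC := E4_CZ_nonneg θ
  have key : ∀ m ∈ Finset.Ioc m0 (m0 + M), ∑ u ∈ Finset.range (U + 1), ∑ t ∈ Finset.Ico S N,
      ∑ i : Fin Γ.length, EL K o (t - m) (fun P => EL K o u (fun R => EL K o m (fun F =>
        g1 K o Γ (2 * h) g r (Γ.get i) (Γ.drop (i + 1)) P R F *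
        ind (LHin (2 * h) F.length (Γ.get i) (Γ.drop (i + 1))
          (vp o (fr K o (Γ.get i)) (P ++ F)))))) ≤ 3 / 2 * CZ θ ^ 2 * ((m0 : ℝ) + M + 1) := by
    intro m hm
    rw [Finset.mem_Ioc] at hm
    rw [Finset.sum_comm]
    have h1 : ∀ t ∈ Finset.Ico S N, ∑ u ∈ Finset.range (U + 1),
        ∑ i : Fin Γ.length, EL K o (t - m) (fun P => EL K o u (fun R => EL K o m (fun F =>
        g1 K o Γ (2 * h) g r (Γ.get i) (Γ.drop (i + 1)) P R F *
        ind (LHin (2 * h) F.length (Γ.get i) (Γ.drop (i + 1))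
          (vp o (fr K o (Γ.get i)) (P ++ F))))))
        ≤ CZ θ * kmTL K o Γ t (fun x ρ L => ind (LHin (2 * h) m x ρ (vp o (fr K o x) L)) *
          ind (stL K o x ρ L = r + 1)) := by
      intro t ht
      rw [Finset.mem_Ico] at ht
      exact E4_term_a hP o Γ g r m U t (by omega) (by omega)
    refine (Finset.sum_le_sum h1).trans ?_
    rw [← Finset.mul_sum]
    have h2 := E4_mass hP o Γ hΓ S N r m (by omega)
    have h3 : (m : ℝ) ≤ (m0 : ℝ) + M := by exact_mod_cast hm.2
    calc _ ≤ CZ θ * (3 / 2 * CZ θ * ((m : ℝ) + 1)) := mul_le_mul_of_nonneg_left h2 hC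
      _ ≤ CZ θ * (3 / 2 * CZ θ * ((m0 : ℝ) + M + 1)) := by gcongr
      _ = _ := by ring
  refine (Finset.sum_le_sum key).trans ?_
  rw [Finset.sum_const, Nat.card_Ioc, nsmul_eq_mul]
  have : m0 + M - m0 = M := by omega
  rw [this]
  apply le_of_eq
  ring

/-- one junction, deletions: reindexing by the total length -/
theorem E4_reindex (S N U : ℕ) (F : ℕ → ℕ → ℝ) (hF : ∀ u t, 0 ≤ F u t) :
    ∑ u ∈ Finset.range (U + 1), ∑ t ∈ Finset.Ico S N, F u (t + u)
      ≤ ∑ t ∈ Finset.Ico S (N + U), ∑ u ∈ Finset.range (U + 1), F u t := by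
  rw [Finset.sum_comm (s := Finset.Ico S (N + U))]
  refine Finset.sum_le_sum (fun u hu => ?_)
  rw [Finset.mem_range] at hu
  rw [Finset.sum_Ico_add' (fun t => F u t) S N u]
  refine Finset.sum_le_sum_of_subset_of_nonneg ?_ (fun t _ _ => hF u t)
  intro t ht
  rw [Finset.mem_Ico] at ht ⊢
  omega

theorem err_c (hP : Par K θ h) (o : V) (Γ : List V) (hΓ : Γ.Nodup) (g r m0 M U S N : ℕ) (hg : 1 ≤ g)
    (hb : 2 * h ≤ m0) (hS : m0 + M + 2 * h + U ≤ S)
    (hL : 4 * (m0 + M + U) ≤ Nat.sqrt (Fintype.card V)) :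
    tri K o Γ m0 M U S N (fun x ρ P R F => g2 K o Γ (2 * h) g r x ρ P R F *
        ind (LHin (2 * h) (R.length + F.length) x ρ (vp o (fr K o x) (P ++ (R ++ F)))))
      ≤ 3 / 2 * CZ θ * (M * ((m0 : ℝ) + M + U + 1)) := by
  unfold tri
  have hC := E4_CZ_nonneg θ
  have key : ∀ m ∈ Finset.Ioc m0 (m0 + M), ∑ u ∈ Finset.range (U + 1), ∑ t ∈ Finset.Ico S N,
      ∑ i : Fin Γ.length, EL K o (t - m) (fun P => EL K o u (fun R => EL K o m (fun F =>
        g2 K o Γ (2 * h) g r (Γ.get i) (Γ.drop (i + 1)) P R F *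
        ind (LHin (2 * h) (R.length + F.length) (Γ.get i) (Γ.drop (i + 1))
          (vp o (fr K o (Γ.get i)) (P ++ (R ++ F))))))) ≤ 3 / 2 * CZ θ * ((m0 : ℝ) + M + U + 1) := by
    intro m hm
    rw [Finset.mem_Ioc] at hm
    -- the integrand through the whole word
    have h1 : ∀ u ∈ Finset.range (U + 1), ∀ t ∈ Finset.Ico S N,
        ∑ i : Fin Γ.length, EL K o (t - m) (fun P => EL K o u (fun R => EL K o m (fun F =>
        g2 K o Γ (2 * h) g r (Γ.get i) (Γ.drop (i + 1)) P R F *
        ind (LHin (2 * h) (R.length + F.length) (Γ.get i) (Γ.drop (i + 1))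
          (vp o (fr K o (Γ.get i)) (P ++ (R ++ F)))))))
        ≤ kmTL K o Γ (t + u) (fun x ρ L =>
          ind (Ev K o (2 * h) g (((win (2 * h) U m L).drop (U - u)).take (2 * h))
            (((win (2 * h) U m L).drop (2 * h + U - u)).take u)
            ((win (2 * h) U m L).drop (2 * h + U))) *
          (ind (LHin (2 * h) (m + U) x ρ (vp o (fr K o x) L)) *
          ind (stL K o x ρ L = r + g + 1))) := by
      intro u hu t ht
      rw [Finset.mem_range] at hu
      rw [Finset.mem_Ico] at ht
      rw [E4_split3 o Γ t m u (by omega)]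
      refine Finset.sum_le_sum (fun i _ => ?_)
      refine EL_mono K o _ (fun P hPl => ?_)
      refine EL_mono K o _ (fun R hRl => ?_)
      refine EL_mono K o _ (fun F hFl => ?_)
      obtain ⟨w1, w2, w3⟩ := E4_win (2 * h) U m P R F (by omega) (by omega) hFl
      rw [hRl] at w1 w2
      rw [w1, w2, w3]
      unfold g2
      have hm1 : ind (LHin (2 * h) (R.length + F.length) (Γ.get i) (Γ.drop (i + 1))
          (vp o (fr K o (Γ.get i)) (P ++ (R ++ F))))
          ≤ ind (LHin (2 * h) (m + U) (Γ.get i) (Γ.drop (i + 1))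
          (vp o (fr K o (Γ.get i)) (P ++ (R ++ F)))) :=
        ind_mono (fun hh => LHin_mono (by omega) hh)
      have n1 := ind_nonneg (Ev K o (2 * h) g (P.rtake (2 * h)) R (F.take (2 * h)))
      have n2 := ind_nonneg (okL K o Γ (Γ.get i) (P ++ (R ++ F)))
      have n3 := ind_nonneg (stL K o (Γ.get i) (Γ.drop (i + 1)) (P ++ (R ++ F)) = r + g + 1)
      calc _ ≤ (ind (Ev K o (2 * h) g (P.rtake (2 * h)) R (F.take (2 * h))) *
            ind (okL K o Γ (Γ.get i) (P ++ (R ++ F))) *
            ind (stL K o (Γ.get i) (Γ.drop (i + 1)) (P ++ (R ++ F)) = r + g + 1)) *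
            ind (LHin (2 * h) (m + U) (Γ.get i) (Γ.drop (i + 1))
              (vp o (fr K o (Γ.get i)) (P ++ (R ++ F)))) :=
          mul_le_mul_of_nonneg_left hm1 (mul_nonneg (mul_nonneg n1 n2) n3)
        _ = _ := by ring
    have h2 := Finset.sum_le_sum (fun u hu => Finset.sum_le_sum (h1 u hu))
    refine h2.trans ?_
    refine (E4_reindex S N U (fun u t => kmTL K o Γ t (fun x ρ L =>
          ind (Ev K o (2 * h) g (((win (2 * h) U m L).drop (U - u)).take (2 * h))
            (((win (2 * h) U m L).drop (2 * h + U - u)).take u)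
            ((win (2 * h) U m L).drop (2 * h + U))) *
          (ind (LHin (2 * h) (m + U) x ρ (vp o (fr K o x) L)) *
          ind (stL K o x ρ L = r + g + 1)))) (fun u t => ?_)).trans ?_
    · exact E0_kmTL_nonneg o Γ t (fun x ρ L => mul_nonneg (ind_nonneg _)
        (mul_nonneg (ind_nonneg _) (ind_nonneg _)))
    · have h3 : ∀ t ∈ Finset.Ico S (N + U), ∑ u ∈ Finset.range (U + 1), kmTL K o Γ t (fun x ρ L =>
          ind (Ev K o (2 * h) g (((win (2 * h) U m L).drop (U - u)).take (2 * h))
            (((win (2 * h) U m L).drop (2 * h + U - u)).take u)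
            ((win (2 * h) U m L).drop (2 * h + U))) *
          (ind (LHin (2 * h) (m + U) x ρ (vp o (fr K o x) L)) *
          ind (stL K o x ρ L = r + g + 1)))
          ≤ kmTL K o Γ t (fun x ρ L => ind (LHin (2 * h) (m + U) x ρ (vp o (fr K o x) L)) *
            ind (stL K o x ρ L = r + g + 1)) := by
        intro t ht
        rw [Finset.mem_Ico] at ht
        rw [← kmTL_sum]
        refine kmTL_mono o Γ t (fun i L hLl _ => ?_)
        rw [← Finset.sum_mul]
        have h4 := f2_le_one K o (2 * h) g U (by have := hP.h_pos; omega) hg (win (2 * h) U m L)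
          (E4_win_length (2 * h) U m L (by omega) (by omega))
        unfold f2 at h4
        calc _ ≤ 1 * (ind (LHin (2 * h) (m + U) (Γ.get i) (Γ.drop (i + 1))
              (vp o (fr K o (Γ.get i)) L)) *
              ind (stL K o (Γ.get i) (Γ.drop (i + 1)) L = r + g + 1)) :=
            mul_le_mul_of_nonneg_right h4 (mul_nonneg (ind_nonneg _) (ind_nonneg _))
          _ = _ := by ring
      refine (Finset.sum_le_sum h3).trans ?_
      refine (E4_mass hP o Γ hΓ S (N + U) (r + g) (m + U) (by omega)).trans ?_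
      have h5 : (m : ℝ) ≤ (m0 : ℝ) + M := by exact_mod_cast hm.2
      push_cast
      have h6 : (m : ℝ) + U + 1 ≤ (m0 : ℝ) + M + U + 1 := by linarith
      exact mul_le_mul_of_nonneg_left h6 (by positivity)
  refine (Finset.sum_le_sum key).trans ?_
  rw [Finset.sum_const, Nat.card_Ioc, nsmul_eq_mul]
  have : m0 + M - m0 = M := by omega
  rw [this]
  apply le_of_eq
  ring

end

end Pool.Agent.helper20.HP
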